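import Pool.Agent.Helper79.KN.Spectrum

/-! Compatible systems, all degrees: definitions. -/

set_option autoImplicit false

open Matrix H77MT Pool.Agent.Helper79.KN

namespace Pool.Agent.Helper79.KQ

variable {Γ X n K L : Type} [Group Γ] [DecidableEq X] [Fintype X] [Fintype n] [DecidableEq n] [Field K] [Field L]

/-- The matrices `y` over the residue field with `y ^ 2 = 0`, such that `1 + y` is the reduction of an element of the image
of `ρ x`. -/
def Unip (ρ : Rep Γ X n K) (x : X) (O : ValuationSubring K) : Set (Matrix n n (IsLocalRing.ResidueField O)) :=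
  {y | y * y = 0 ∧ ∃ (γ : Γ) (M : Matrix n n O), (ρ x γ : Matrix n n K) = M.map (algebraMap O K) ∧
    M.map (IsLocalRing.residue O) = 1 + y}

/-- The residual representation of `ρ x` is large: it is of type `SL` (special linear or unitary groups), or of type `Sp` or
`SO`. -/
def IsBigAt (ρ : Rep Γ X n K) (x : X) : Prop :=
  ∃ O : ValuationSubring K, (∀ γ a b, (ρ x γ : Matrix n n K) a b ∈ O) ∧
    (∀ k : ℕ, 0 < k → k ≤ Fintype.card n → (k : IsLocalRing.ResidueField O) ≠ 0) ∧
    ((∀ z : Matrix n n (IsLocalRing.ResidueField O), z.trace = 0 →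
        z ∈ Submodule.span (IsLocalRing.ResidueField O) (Unip ρ x O)) ∨
      ∃ J : Matrix n n (IsLocalRing.ResidueField O), IsUnit J.det ∧ (Jᵀ = J ∨ Jᵀ = -J) ∧
        ∀ z, zᵀ * J + J * z = 0 →
          z ∈ Submodule.span (IsLocalRing.ResidueField O) {y | y ∈ Unip ρ x O ∧ yᵀ * J + J * y = 0})

/-- The eigenvalues of `M` are the `v k`. -/
def HasRoots (M : Matrix n n K) (v : n → K) : Prop :=
  M.charpoly = ∏ k, (Polynomial.X - Polynomial.C (v k))

/-- Class field theory for the determinants of the subspaces stable under subgroups of finite index: they have companions,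
products of eigenvalues. -/
def HasDet (σ : Rep Γ X n K) (τ : Rep Γ X n L) : Prop :=
  ∀ (x : X) (Δ : Subgroup Γ), Δ.FiniteIndex → ∀ W : Submodule K (n → K),
    (∀ γ ∈ Δ, ∀ w ∈ W, (σ x γ : Matrix n n K) *ᵥ w ∈ W) →
    ∃ (Δ' : Subgroup Γ) (ψ : Δ' →* Lˣ), Δ' ≤ Δ ∧ Δ'.FiniteIndex ∧ ∀ γ : Δ',
      ∃ y : Fin (Module.finrank K W) → L,
        (∀ k, (τ x γ : Matrix n n L).charpoly.IsRoot (y k)) ∧ (ψ γ : L) = ∏ k, y k

/-- The eigenvalues, in some order, of the elements of a subgroup of finite index satisfy the equation with exponents `m`. -/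
def HasRel (τ : Rep Γ X n L) (x : X) (Δ : Subgroup Γ) (m : n → ℤ) : Prop :=
  ∃ Δ' : Subgroup Γ, Δ' ≤ Δ ∧ Δ'.FiniteIndex ∧ ∀ γ' ∈ Δ', ∃ v : n → L,
    HasRoots (τ x γ' : Matrix n n L) v ∧ ∏ k, v k ^ m k = 1

/-- A (finite) compatible system: class field theory for the determinants of the subspaces stable under subgroups of finite
index, and Serre's theorem on the eigenvalues of a Frobenius element. -/
structure IsSystem {I : Type} {K : I → Type} [∀ i, Field (K i)] (ρ : ∀ i, Rep Γ X n (K i)) : Prop where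
  det : ∀ i j, HasDet (ρ i) (ρ j)
  frob : ∀ Δ : Subgroup Γ, Δ.FiniteIndex → ∃ γ ∈ Δ, ∃ u : ∀ i, X → n → K i,
    (∀ i x, HasRoots (ρ i x γ : Matrix n n (K i)) (u i x)) ∧
    ∀ (i j : I) (x : X) (m : n → ℤ), ∏ k, u i x k ^ m k = 1 → HasRel (ρ j) x Δ m

/-- The numbers of the parts of the cohomology of `w ^ M = f` for characters `u x`, not two of them conjugate, whose orders
are divisible by prime numbers `r > 4 A`, for a polynomial `f` with a spectrum `y` with denominators dividing `A`. -/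
def IsCyclic {X T : Type} (n : Type) [Fintype n] (h : T → X → ℤ → ℕ) : Prop :=
  ∃ (y : n → ℚ) (A M : ℕ) (c : T → ℕ) (u : X → ℕ), IsSpectrum y A ∧ Function.Injective u ∧
    (∀ x, 0 < u x ∧ 2 * u x < M ∧ ∃ r : ℕ, r.Prime ∧ 4 * A < r ∧ r ∣ M / Nat.gcd (u x) M) ∧
    (∀ k : ℕ, Nat.Coprime k M → ∃ t, c t = k) ∧ ∀ t x q, h t x q = num y M (c t * u x % M) q

end Pool.Agent.Helper79.KQ
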