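import Pool.Agent.Helper79.KQ.Defs
import Pool.Agent.Helper98.KQ.Q2
import Pool.Agent.Helper79.KN.Asm2

/-! The assembly. -/

set_option autoImplicit false

open Matrix H77MT Pool.Agent.Helper79.KN

namespace Pool.Agent.Helper79.KQ

section single
variable {Γ X n K : Type} [Group Γ] [DecidableEq X] [Fintype X] [Fintype n] [DecidableEq n] [Field K]

theorem mem_single (ρ : Rep Γ X n K) (x : X) (Δ : Subgroup Γ) {M : Matrix n n K}
    (h : M ∈ zcl {s | ∃ γ ∈ Δ, s = (ρ x γ : Matrix n n K)}) :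
    blockDiagonal (fun _ : Unit => M) ∈ zcl (img (X := Unit) (fun _ => ρ x) Δ) := by
  intro f hf
  have hev : ∀ N : Matrix n n K,
      ev N (MvPolynomial.rename (fun p : (n × Unit) × (n × Unit) => (p.1.1, p.2.1)) f) =
        ev (blockDiagonal (fun _ : Unit => N)) f := by
    intro N
    unfold ev
    rw [MvPolynomial.aeval_rename]
    congr 2
  rw [← hev]
  refine h _ ?_
  rintro _ ⟨γ, hγ, rfl⟩
  rw [hev]
  exact hf _ ⟨γ, hγ, rfl⟩

/-- Q3: one eigenspace -/
theorem isHT_single {ρ : Rep Γ X n K} {h : X → ℤ → ℕ} {S : Finset ℤ} {R : X → ℤ → Matrix n n K} (hR : IsHT ρ h S R)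
    (x : X) : IsHT (X := Unit) (fun _ => ρ x) (fun _ => h x) S (fun _ => R x) where
  mul := fun _ => hR.mul x
  supp := fun _ => hR.supp x
  sum := fun _ => hR.sum x
  rank := fun _ => hR.rank x
  mem := fun Δ hΔ z hz => mem_single ρ x Δ (zcl_block ρ Δ (hR.mem Δ hΔ z hz) x)

end single

section full
variable {Γ X T n : Type} [Group Γ] [DecidableEq X] [Fintype X] [Fintype n] [DecidableEq n] {K : Type} [Field K]

/-- the Lie algebra of one eigenspace -/
theorem block_full [IsAlgClosed K] [CharZero K] {h : T → X → ℤ → ℕ} (ρ : Rep Γ X n K) (h4 : 4 < Fintype.card n)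
    (x : X) (hasym : ∃ t, ∀ w : ℤ, ∃ p, h t x p ≠ h t x (w - p)) (hB : IsBigAt ρ x) (hHT : HasHT ρ h) (Δ : Subgroup Γ)
    (hΔ : Δ.FiniteIndex) (hn : Δ.Normal) (c : Matrix n n K) (hc : c.trace = 0) : ∃ a ∈ fam ρ Δ, a x = c := by
  classical
  obtain ⟨O, hint, hcast, hspan⟩ := hB
  have h2 : (2 : IsLocalRing.ResidueField O) ≠ 0 := by
    have := hcast 2 (by norm_num) (by omega)
    exact_mod_cast this
  have hN : ((Fintype.card n : ℕ) : IsLocalRing.ResidueField O) ≠ 0 := hcast _ (by omega) le_rfl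
  let L : Submodule K (Matrix n n K) := (fam ρ Δ).map (LinearMap.proj x)
  have hbr : ∀ a ∈ L, ∀ b ∈ L, a * b - b * a ∈ L := by
    rintro _ ⟨a, ha, rfl⟩ _ ⟨b, hb, rfl⟩
    exact ⟨a * b - b * a, fam_br ρ Δ a ha b hb, rfl⟩
  have hconj : ∀ (γ : Γ), ∀ a ∈ L, (ρ x γ : Matrix n n K) * a * (ρ x γ⁻¹ : Matrix n n K) ∈ L := by
    rintro γ _ ⟨a, ha, rfl⟩
    exact ⟨_, fam_conj ρ hn γ ha, rfl⟩
  have hL : ∀ y ∈ Unip ρ x O, ∃ g' h' : Matrix n n O, g' * h' = 1 ∧
      g'.map (IsLocalRing.residue O) = 1 + y ∧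
      ∀ a ∈ L, g'.map (algebraMap O K) * a * h'.map (algebraMap O K) ∈ L ∧
        h'.map (algebraMap O K) * a * g'.map (algebraMap O K) ∈ L := by
    rintro y ⟨h6, γ, M₀, hM1, hM2⟩
    let N₀ : Matrix n n O := Matrix.of fun a b => ⟨(ρ x γ⁻¹ : Matrix n n K) a b, hint γ⁻¹ a b⟩
    have hN₀ : (ρ x γ⁻¹ : Matrix n n K) = N₀.map (algebraMap O K) := by
      ext a b
      rfl
    refine ⟨M₀, N₀, ?_, hM2, ?_⟩
    · have hinj : Function.Injective (fun M : Matrix n n O => M.map (algebraMap O K)) :=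
        Matrix.map_injective (IsFractionRing.injective O K)
      apply hinj
      show (M₀ * N₀).map (algebraMap O K) = (1 : Matrix n n O).map (algebraMap O K)
      rw [Matrix.map_mul, ← hM1, ← hN₀, Matrix.map_one _ (map_zero _) (map_one _), ← Units.val_mul, ← map_mul,
        mul_inv_cancel, map_one, Units.val_one]
    · intro a ha
      rw [← hM1, ← hN₀]
      refine ⟨hconj γ a ha, ?_⟩
      have := hconj γ⁻¹ a ha
      rwa [inv_inv] at this
  obtain ⟨t, ht⟩ := hasym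
  obtain ⟨S', R, hR⟩ := hHT t
  have hcL : ∑ p ∈ S', (p : K) • R x p ∈ L := ⟨_, ht_fam hR Δ hΔ, rfl⟩
  have hns : ∃ c ∈ L, ∀ l : K, c ≠ l • (1 : Matrix n n K) := by
    refine ⟨_, hcL, fun l hl => ?_⟩
    obtain ⟨w, hw⟩ := Pool.Agent.Helper79.KM.ht_scalar (hR.mul x) (hR.supp x) hl
    obtain ⟨p, hp⟩ := ht w
    apply hp
    rw [← hR.rank, ← hR.rank]
    exact hw p
  rcases hspan with hsl | ⟨J, hJ, hs, hJs⟩
  · exact lift_sl O h2 h4 (Unip ρ x O) (fun y hy => hy.1) hsl L hbr hL hns c hc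
  · have hs' : Jᵀ = J ∧ ((Fintype.card n : ℕ) : IsLocalRing.ResidueField O) ≠ 2 ∨
        Jᵀ = -J ∧ ((Fintype.card n : ℕ) : IsLocalRing.ResidueField O) ≠ -2 := by
      rcases hs with h5 | h5
      · left
        refine ⟨h5, fun h6 => ?_⟩
        apply hcast (Fintype.card n - 2) (by omega) (by omega)
        rw [Nat.cast_sub (by omega), h6]
        norm_num
      · right
        refine ⟨h5, fun h6 => ?_⟩
        have heven := even_of_alt h2 hJ h5
        have h7 : ((Fintype.card n + 2 : ℕ) : IsLocalRing.ResidueField O) = 0 := by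
          push_cast
          rw [h6]
          norm_num
        obtain ⟨r, hr⟩ := CharP.exists (IsLocalRing.ResidueField O)
        rw [CharP.cast_eq_zero_iff _ r] at h7
        have hr0 : r ≠ 0 := by
          rintro rfl
          rw [zero_dvd_iff] at h7
          omega
        have hrn : Fintype.card n < r := by
          by_contra hcon
          exact hcast r (Nat.pos_of_ne_zero hr0) (by omega) (CharP.cast_eq_zero _ r)
        have hrp : r.Prime := (CharP.char_is_prime_or_zero (IsLocalRing.ResidueField O) r).resolve_right hr0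
        have hodd : Odd r := hrp.odd_of_ne_two (by omega)
        obtain ⟨q, hq⟩ := h7
        obtain ⟨k, hk⟩ := hodd
        obtain ⟨l, hl⟩ := heven
        have hq1 : q = 1 := by
          have h8 : r * q < r * 2 := by omega
          have h9 := Nat.lt_of_mul_lt_mul_left h8
          have : q ≠ 0 := by
            rintro rfl
            omega
          omega
        subst hq1
        omega
    let P : Set (Matrix n n (IsLocalRing.ResidueField O)) := {y | y ∈ Unip ρ x O ∧ yᵀ * J + J * y = 0}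
    rcases lift_gen79 O h2 h4 hJ hs P (fun y hy => ⟨hy.2, hy.1.1⟩) hJs L hbr (fun y hy => hL y hy.1) hns with h1 | ⟨h1, h7⟩
    · exact h1 c hc
    · exfalso
      obtain ⟨b, hb, hbL⟩ := Pool.Agent.Helper3.KN.casimir O h2 hN hJ hs' L hbr h1 h7
      obtain ⟨μ, hμ⟩ := hbL _ hcL
      obtain ⟨w, hw⟩ := Pool.Agent.Helper79.KM.ht_sim (hR.mul x) (hR.supp x) (hR.sum x) hb hμ
      obtain ⟨p, hp⟩ := ht w
      apply hp
      rw [← hR.rank, ← hR.rank]
      exact hw p

/-- the closure of the image on one eigenspace -/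
theorem full_at [IsAlgClosed K] [CharZero K] {h : T → X → ℤ → ℕ} (ρ : Rep Γ X n K) (h4 : 4 < Fintype.card n)
    (x : X) (hasym : ∃ t, ∀ w : ℤ, ∃ p, h t x p ≠ h t x (w - p)) (hB : IsBigAt ρ x) (hHT : HasHT ρ h) (Δ : Subgroup Γ)
    (hΔ : Δ.FiniteIndex) (M : Matrix n n K) (hM : M.det = 1) : M ∈ zcl {s | ∃ γ ∈ Δ, s = (ρ x γ : Matrix n n K)} := by
  classical
  have := hΔ
  have hfin : Δ.normalCore.FiniteIndex := inferInstance
  let ρ₁ : Rep Γ Unit n K := fun _ => ρ x
  have hHT₁ : HasHT ρ₁ (fun t _ => h t x) := by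
    intro t
    obtain ⟨S', R, hR⟩ := hHT t
    exact ⟨S', fun _ => R x, isHT_single hR x⟩
  have h1 : ∀ M' : Unit → Matrix n n K, (∀ y, (M' y).trace = 0) → blockDiagonal M' ∈ LL (img ρ₁ Δ.normalCore) := by
    intro M' hM'
    obtain ⟨a, ha, hax⟩ := block_full ρ₁ h4 () hasym hB hHT₁ Δ.normalCore hfin inferInstance (M' ()) (hM' ())
    have : a = M' := by
      funext y
      exact hax
    rw [← this]
    exact ha
  have h2 := full_of_LL ρ₁ Δ.normalCore h1 (fun _ => M) (fun _ => hM)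
  exact zcl_block ρ₁ Δ (zcl_mono (img_mono ρ₁ (Subgroup.normalCore_le Δ)) h2) ()

/-- **Compatible systems with large residual representations.** -/
theorem system {I : Type} {K : I → Type} [∀ i, Field (K i)] [∀ i, IsAlgClosed (K i)] [∀ i, CharZero (K i)]
    {ρ : ∀ i, Rep Γ X n (K i)} {h : T → X → ℤ → ℕ} (h4 : 4 < Fintype.card n) (hS : IsSep h)
    (hHT : ∀ i, HasHT (ρ i) h) (hC : IsSystem ρ) (hB : ∀ x, ∃ i, IsBigAt (ρ i) x) (i : I) : IsFull (ρ i) := by
  classical
  choose j hj using hB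
  have hfull : ∀ (x : X) (Δ : Subgroup Γ), Δ.FiniteIndex → ∀ M : Matrix n n (K (j x)), M.det = 1 →
      M ∈ zcl {s | ∃ γ ∈ Δ, s = (ρ (j x) x γ : Matrix n n (K (j x)))} := fun x Δ hΔ M hM =>
    full_at (ρ (j x)) h4 x (hS.asym x) (hj x) (hHT (j x)) Δ hΔ M hM
  intro Δ hΔ M hM
  obtain ⟨γ, hγ, u, hu, hrel⟩ := hC.frob Δ hΔ
  have hind : ∀ (x : X) (m : n → ℤ), ∏ k, u i x k ^ m k = 1 → ∀ k l, m k = m l := by
    intro x m hm
    obtain ⟨Δ', _, hfin, h1⟩ := hrel i (j x) x m hm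
    exact Pool.Agent.Helper79.KM.no_rel (ρ := ρ (j x) x) (Δ := Δ') (hfull x Δ' hfin) m h1
  have hirr : ∀ (x : X) (Δ : Subgroup Γ), Δ.FiniteIndex → ∀ W : Submodule (K i) (n → K i),
      (∀ γ ∈ Δ, ∀ w ∈ W, (ρ i x γ : Matrix n n (K i)) *ᵥ w ∈ W) → W = ⊥ ∨ W = ⊤ := by
    intro x Δ hΔ W hW
    by_contra hcon
    push Not at hcon
    obtain ⟨Δ', ψ, hle, hfin, hψ⟩ := hC.det i (j x) x Δ hΔ W hW
    have h1 : 0 < Module.finrank (K i) W := by
      rw [Nat.pos_iff_ne_zero]
      intro h0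
      exact hcon.1 (Submodule.finrank_eq_zero.1 h0)
    have h2 : Module.finrank (K i) W < Fintype.card n := by
      have := Submodule.finrank_lt hcon.2
      rwa [Module.finrank_fintype_fun_eq_card] at this
    exact Pool.Agent.Helper79.KM.no_char (ρ := ρ (j x) x) ψ h1 h2 (hfull x Δ' hfin) hψ
  refine full_of_blocks (ρ i) hS (hHT i) Δ hΔ (fun x c hc => ?_) M hM
  obtain ⟨M', h1, h2⟩ := Pool.Agent.Helper31.KN.full_l (ρ i) Δ hΔ hγ (u i) (hu i) hind x (hirr x) c hc
  exact ⟨M', h2, h1⟩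

end full

end Pool.Agent.Helper79.KQ
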